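import Pool.Agent.Helper47.Cyc.Defs

/-!
# Number theory for cyclic permutation groups (packet B of MP_0130f7_co)
-/

set_option autoImplicit false

namespace Pool.Agent.Helper47.Cyc

theorem ip_le_iff {m l p i : ℕ} (hp : p.Prime) :
    ip m l p ≤ i ↔ l % p ^ (m.factorization p) < p ^ i := by
  unfold ip
  rw [if_pos hp, Nat.clog_le_iff_le_pow hp.one_lt, Nat.succ_le_iff]

/-- Congruence modulo all prime powers dividing `k`. -/
theorem modEq_of_primes {k : ℕ} (hk : k ≠ 0) {a b : ℤ}
    (h : ∀ p, p.Prime → a ≡ b [ZMOD ((p ^ (k.factorization p) : ℕ) : ℤ)]) :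
    a ≡ b [ZMOD (k : ℤ)] := by
  rw [Int.modEq_iff_dvd, Int.natCast_dvd, Nat.dvd_iff_prime_pow_dvd_dvd]
  intro p j hp hj
  have h1 := (hp.pow_dvd_iff_le_factorization hk).1 hj
  have h2 := h p hp
  rw [Int.modEq_iff_dvd, Int.natCast_dvd] at h2
  exact (pow_dvd_pow p h1).trans h2

/-- The Chinese remainder theorem over the prime powers of `L`. -/
theorem exists_crt {L : ℕ} (hL : 0 < L) (a : ℕ → ℕ)
    (ha : ∀ p, p.Prime → a p < p ^ (L.factorization p)) :
    ∃ l < L, ∀ p, p.Prime → l % p ^ (L.factorization p) = a p := by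
  have hs : ∀ i ∈ L.primeFactors, i ^ (L.factorization i) ≠ 0 := fun i hi =>
    pow_ne_zero _ (Nat.prime_of_mem_primeFactors hi).ne_zero
  have pp : Set.Pairwise (L.primeFactors : Set ℕ)
      (Function.onFun Nat.Coprime fun i => i ^ (L.factorization i)) := by
    intro i hi j hj hij
    exact Nat.Coprime.pow _ _ ((Nat.coprime_primes (Nat.prime_of_mem_primeFactors hi)
      (Nat.prime_of_mem_primeFactors hj)).2 hij)
  have h1 := Nat.chineseRemainderOfFinset_lt_prod a (fun i => i ^ (L.factorization i)) hs pp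
  have h2 : ∏ i ∈ L.primeFactors, i ^ (L.factorization i) = L :=
    Nat.prod_factorization_pow_eq_self hL.ne'
  rw [h2] at h1
  refine ⟨_, h1, fun p hp => ?_⟩
  by_cases hpL : p ∈ L.primeFactors
  · have h3 := (Nat.chineseRemainderOfFinset a (fun i => i ^ (L.factorization i))
      L.primeFactors hs pp).2 p hpL
    have h4 : _ % p ^ (L.factorization p) = a p % p ^ (L.factorization p) := h3
    rw [h4, Nat.mod_eq_of_lt (ha p hp)]
  · have h3 : L.factorization p = 0 := by
      rw [← Nat.support_factorization, Finsupp.notMem_support_iff] at hpL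
      exact hpL
    have h4 := ha p hp
    rw [h3, pow_zero] at h4
    rw [h3, pow_zero, Nat.mod_one]
    omega

theorem nt_lift {k L l : ℕ} (hL : 0 < L) (h : k ∣ L) (hl : l < k) (f : ℕ → ℕ) :
    ∃ l' < L, l' ≡ l [MOD k] ∧ Lam L l' f = Lam k l f := by
  have hk : k ≠ 0 := by omega
  set x : ℕ → ℕ := fun p => k.factorization p with hx
  set y : ℕ → ℕ := fun p => L.factorization p with hy
  have hxy : ∀ p, x p ≤ y p := fun p => (Nat.factorization_le_iff_dvd hk hL.ne').2 h p
  set a : ℕ → ℕ := fun p =>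
    if x p < f p ∧ f p ≤ y p then l % p ^ (x p) + p ^ (f p - 1) else l % p ^ (x p) with ha
  have hlt : ∀ p, p.Prime → x p < f p → l % p ^ (x p) + p ^ (f p - 1) < p ^ (f p) := by
    intro p hp hxf
    have h1 : l % p ^ (x p) < p ^ (x p) := Nat.mod_lt _ (pow_pos hp.pos _)
    have h2 : p ^ (x p) ≤ p ^ (f p - 1) := Nat.pow_le_pow_right hp.pos (by omega)
    have h3 : p ^ (f p) = p ^ (f p - 1) * p := by
      rw [← pow_succ]
      congr 1
      omega
    have h4 : 2 ≤ p := hp.two_le
    have h5 := Nat.mul_le_mul_left (p ^ (f p - 1)) h4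
    rw [h3]
    linarith
  obtain ⟨l', hl', hmod⟩ := exists_crt hL a (by
    intro p hp
    have h1 : l % p ^ (x p) < p ^ (x p) := Nat.mod_lt _ (pow_pos hp.pos _)
    have h2 : p ^ (x p) ≤ p ^ (y p) := Nat.pow_le_pow_right hp.pos (hxy p)
    simp only [ha]
    split_ifs with hc
    · exact (hlt p hp hc.1).trans_le (Nat.pow_le_pow_right hp.pos hc.2)
    · exact h1.trans_le h2)
  refine ⟨l', hl', ?_, ?_⟩
  · -- the congruence
    have h1 : (l' : ℤ) ≡ (l : ℤ) [ZMOD (k : ℤ)] := by
      refine modEq_of_primes hk fun p hp => ?_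
      rw [Int.natCast_modEq_iff]
      have h2 : l' ≡ a p [MOD p ^ (y p)] := by
        unfold Nat.ModEq
        rw [hmod p hp, Nat.mod_eq_of_lt]
        rw [← hmod p hp]
        exact Nat.mod_lt _ (pow_pos hp.pos _)
      have h3 : l' ≡ a p [MOD p ^ (x p)] := h2.of_dvd (pow_dvd_pow p (hxy p))
      refine h3.trans ?_
      simp only [ha]
      split_ifs with hc
      · have h4 : p ^ (f p - 1) ≡ 0 [MOD p ^ (x p)] :=
          Nat.modEq_zero_iff_dvd.2 (pow_dvd_pow p (by omega))
        have h5 := (Nat.mod_modEq l (p ^ (x p))).add h4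
        simpa using h5
      · exact Nat.mod_modEq _ _
    exact Int.natCast_modEq_iff.1 h1
  · funext p
    unfold Lam
    by_cases hp : p.Prime
    · by_cases hc : x p < f p ∧ f p ≤ y p
      · have h1 : l' % p ^ (y p) = l % p ^ (x p) + p ^ (f p - 1) := by
          rw [hmod p hp]
          simp only [ha]
          rw [if_pos hc]
        have h2 : ip L l' p = f p := by
          refine le_antisymm ((ip_le_iff hp).2 ?_) ?_
          · rw [show L.factorization p = y p from rfl, h1]
            exact hlt p hp hc.1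
          · by_contra hcon
            push Not at hcon
            have h3 : ip L l' p ≤ f p - 1 := by omega
            rw [ip_le_iff hp, show L.factorization p = y p from rfl, h1] at h3
            exact (Nat.not_lt.2 (Nat.le_add_left _ _)) h3
        have h3 : adj L f p = 0 := by
          unfold adj
          rw [if_neg (by rw [show L.factorization p = y p from rfl]; omega)]
        have h4 : adj k f p = f p := by
          unfold adj
          rw [if_pos hc.1]
        have h5 : ip k l p ≤ x p := (ip_le_iff hp).2 (Nat.mod_lt _ (pow_pos hp.pos _))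
        rw [h2, h3, h4]
        have := hc.1
        omega
      · have h1 : l' % p ^ (y p) = l % p ^ (x p) := by
          rw [hmod p hp]
          simp only [ha]
          rw [if_neg hc]
        have h2 : ip L l' p = ip k l p := by
          unfold ip
          rw [if_pos hp, if_pos hp, show L.factorization p = y p from rfl, h1]
        have h3 : adj L f p = adj k f p := by
          unfold adj
          rw [show L.factorization p = y p from rfl, show k.factorization p = x p from rfl]
          have := hxy p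
          by_cases h4 : y p < f p
          · rw [if_pos h4, if_pos (by omega)]
          · rw [if_neg h4, if_neg (fun h5 => hc ⟨h5, by omega⟩)]
        rw [h2, h3]
    · have h2 : ip L l' p = ip k l p := by
        unfold ip
        rw [if_neg hp, if_neg hp]
      have h3 : adj L f p = adj k f p := by
        unfold adj
        rw [Nat.factorization_eq_zero_of_not_prime _ hp, Nat.factorization_eq_zero_of_not_prime _ hp]
      rw [h2, h3]

theorem nt_trans {k d : ℕ} (hk : 0 < k) (hd : 0 < d) (l0 : ℤ) :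
    ∃! l : ℕ, l < k ∧ (∃ t : ℤ, (l : ℤ) ≡ l0 + d * t [ZMOD k]) ∧
      ∀ p, ip k l p ≤ d.factorization p := by
  set x : ℕ → ℕ := fun p => k.factorization p with hx
  set z : ℕ → ℕ := fun p => d.factorization p with hz
  set a : ℕ → ℕ := fun p => (l0 % ((p ^ (min (x p) (z p)) : ℕ) : ℤ)).toNat with ha
  have hpos : ∀ p, p.Prime → (0 : ℤ) < ((p ^ (min (x p) (z p)) : ℕ) : ℤ) := fun p hp => by
    exact_mod_cast pow_pos hp.pos _
  have ha1 : ∀ p, p.Prime → ((a p : ℕ) : ℤ) = l0 % ((p ^ (min (x p) (z p)) : ℕ) : ℤ) :=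
    fun p hp => Int.toNat_of_nonneg (Int.emod_nonneg _ (hpos p hp).ne')
  have ha2 : ∀ p, p.Prime → a p < p ^ (min (x p) (z p)) := by
    intro p hp
    have h1 := Int.emod_lt_of_pos l0 (hpos p hp)
    rw [← ha1 p hp] at h1
    exact_mod_cast h1
  -- the residue of every solution is `a p`
  have hres : ∀ l : ℕ, (∃ t : ℤ, (l : ℤ) ≡ l0 + d * t [ZMOD k]) →
      (∀ p, ip k l p ≤ d.factorization p) → ∀ p, p.Prime → l % p ^ (x p) = a p := by
    rintro l ⟨t, ht⟩ hip p hp
    have h1 := (ip_le_iff hp).1 (hip p)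
    have h2 : l % p ^ (x p) < p ^ (x p) := Nat.mod_lt _ (pow_pos hp.pos _)
    have h3 : l % p ^ (x p) < p ^ (min (x p) (z p)) := by
      rcases le_total (x p) (z p) with h | h
      · rw [min_eq_left h]; exact h2
      · rw [min_eq_right h]; exact h1
    have hmk : ((p ^ (min (x p) (z p)) : ℕ) : ℤ) ∣ (k : ℤ) := by
      exact_mod_cast (pow_dvd_pow p (min_le_left _ _)).trans (Nat.ordProj_dvd k p)
    have hmd : ((p ^ (min (x p) (z p)) : ℕ) : ℤ) ∣ (d : ℤ) := by
      exact_mod_cast (pow_dvd_pow p (min_le_right _ _)).trans (Nat.ordProj_dvd d p)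
    have h4 : (l : ℤ) ≡ l0 [ZMOD ((p ^ (min (x p) (z p)) : ℕ) : ℤ)] := by
      have h5 := ht.of_dvd hmk
      refine h5.trans ?_
      rw [Int.modEq_iff_dvd]
      have : l0 - (l0 + d * t) = d * (-t) := by ring
      rw [this]
      exact Dvd.dvd.mul_right hmd _
    have h5 : ((l % p ^ (x p) : ℕ) : ℤ) ≡ (l : ℤ) [ZMOD ((p ^ (min (x p) (z p)) : ℕ) : ℤ)] := by
      rw [Int.natCast_modEq_iff]
      exact (Nat.mod_modEq l (p ^ (x p))).of_dvd (pow_dvd_pow p (min_le_left _ _))
    have h6 := h5.trans h4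
    unfold Int.ModEq at h6
    rw [← ha1 p hp, Int.emod_eq_of_lt (by positivity) (by exact_mod_cast h3)] at h6
    exact_mod_cast h6
  obtain ⟨l, hl, hmod⟩ := exists_crt hk a fun p hp =>
    (ha2 p hp).trans_le (Nat.pow_le_pow_right hp.pos (min_le_left _ _))
  refine ⟨l, ⟨hl, ?_, ?_⟩, ?_⟩
  · -- `l ≡ l0` modulo the gcd
    have hg0 : Nat.gcd k d ≠ 0 := Nat.gcd_ne_zero_left hk.ne'
    have h1 : (l : ℤ) ≡ l0 [ZMOD ((Nat.gcd k d : ℕ) : ℤ)] := by
      refine modEq_of_primes hg0 fun p hp => ?_
      rw [Nat.factorization_gcd hk.ne' hd.ne', Finsupp.inf_apply]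
      change (l : ℤ) ≡ l0 [ZMOD ((p ^ (min (x p) (z p)) : ℕ) : ℤ)]
      have h2 : (l : ℤ) ≡ ((a p : ℕ) : ℤ) [ZMOD ((p ^ (min (x p) (z p)) : ℕ) : ℤ)] := by
        rw [← hmod p hp, Int.natCast_modEq_iff]
        exact ((Nat.mod_modEq l (p ^ (x p))).of_dvd (pow_dvd_pow p (min_le_left _ _))).symm
      refine h2.trans ?_
      rw [ha1 p hp]
      exact Int.mod_modEq _ _
    rw [Int.modEq_iff_dvd] at h1
    obtain ⟨c, hc⟩ := h1
    have hbez := Nat.gcd_eq_gcd_ab k d
    refine ⟨-(Nat.gcdB k d * c), ?_⟩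
    rw [Int.modEq_iff_dvd]
    refine ⟨Nat.gcdA k d * c, ?_⟩
    have h2 : l0 = l + (Nat.gcd k d : ℤ) * c := by linarith
    rw [h2, hbez]
    ring
  · intro p
    by_cases hp : p.Prime
    · rw [ip_le_iff hp, hmod p hp]
      exact (ha2 p hp).trans_le (Nat.pow_le_pow_right hp.pos (min_le_right _ _))
    · unfold ip
      rw [if_neg hp]
      exact Nat.zero_le _
  · rintro l' ⟨hl', ht', hip'⟩
    have h1 := hres l' ht' hip'
    have h2 : (l' : ℤ) ≡ (l : ℤ) [ZMOD (k : ℤ)] := by
      refine modEq_of_primes hk.ne' fun p hp => ?_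
      rw [Int.natCast_modEq_iff]
      unfold Nat.ModEq
      have h3 := hmod p hp
      have h4 := h1 p hp
      simp only [hx] at h4
      rw [h3, h4]
    have h3 : l' ≡ l [MOD k] := Int.natCast_modEq_iff.1 h2
    unfold Nat.ModEq at h3
    rwa [Nat.mod_eq_of_lt hl', Nat.mod_eq_of_lt hl] at h3

end Pool.Agent.Helper47.Cyc
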